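import Pool.Agent.UL3.Stmts

/-! Row INV of the squad UL3: linear invariance. -/

set_option autoImplicit false

namespace Pool.Agent.UL3.H2

open MeasureTheory Set

theorem image_int (K : Set E3) (T : E3 ≃L[ℝ] E3) : interior (T '' K) = T '' interior K :=
  (T.toHomeomorph.image_interior K).symm

theorem dt_symm (T : E3 ≃L[ℝ] E3) (v : Fin 3 → E3) :
    dt v = |LinearMap.det (T : E3 →ₗ[ℝ] E3)| * dt (fun i => T.symm (v i)) := by
  set b := (EuclideanSpace.basisFun (Fin 3) ℝ).toBasis with hb
  set A := LinearMap.toMatrix b b (T : E3 →ₗ[ℝ] E3) with hA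
  have hdet : LinearMap.det (T : E3 →ₗ[ℝ] E3) = A.det := (LinearMap.det_toMatrix b _).symm
  have hM : (Matrix.of fun i j => v i j) =
      (Matrix.of fun i j => (T.symm (v i)) j) * A.transpose := by
    ext i j
    have h1 := congrFun (LinearMap.toMatrix_mulVec_repr b b (T : E3 →ₗ[ℝ] E3) (T.symm (v i))) j
    have h2 : b.repr ((T : E3 →ₗ[ℝ] E3) (T.symm (v i))) j = v i j := by
      simp [hb]
    rw [h2] at h1
    rw [Matrix.of_apply, ← h1, Matrix.mul_apply, Matrix.mulVec, dotProduct]
    refine Finset.sum_congr rfl fun k _ => ?_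
    rw [Matrix.transpose_apply, Matrix.of_apply, mul_comm]
    congr 1
  unfold dt
  rw [hM, Matrix.det_mul, Matrix.det_transpose, abs_mul, hdet, mul_comm]

theorem inv : InvStmt := by
  intro K T hK
  refine ⟨⟨hK.cpt.image T.continuous, hK.cvx.linear_image (T : E3 →ₗ[ℝ] E3), ?_, ?_⟩, ?_⟩
  · rintro _ ⟨x, hx, rfl⟩
    exact ⟨-x, hK.sym x hx, by simp⟩
  · rw [image_int]
    exact hK.int.image T
  · rintro ⟨v, h0, hadm, hle⟩
    have hd := dt_symm T v
    set c := |LinearMap.det (T : E3 →ₗ[ℝ] E3)| with hc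
    have hc0 : 0 ≤ c := abs_nonneg _
    have hcpos : 0 < c := by
      rcases hc0.lt_or_eq with h | h
      · exact h
      · rw [← h, zero_mul] at hd
        linarith
    have hV : V (T '' K) = c * V K := by
      unfold V
      rw [measureReal_def, measureReal_def, Measure.addHaar_image_continuousLinearEquiv,
        ENNReal.toReal_mul, ENNReal.toReal_ofReal (abs_nonneg _)]
    refine ⟨fun i => T.symm (v i), ?_, ?_, ?_⟩
    · rw [hd] at h0
      exact (mul_pos_iff_of_pos_left hcpos).1 h0
    · intro n hn hmem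
      apply hadm n hn
      rw [image_int]
      refine ⟨_, hmem, ?_⟩
      simp [map_sum]
    · rw [hV, hd] at hle
      have : c * dt (fun i => T.symm (v i)) ≤ c * (Real.sqrt 3 / 8 * V K) := by linarith
      exact le_of_mul_le_mul_left this hcpos

end Pool.Agent.UL3.H2
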